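import Pool.Agent.Q227.RC.Main

/-!
# MP_7f4d3c_lc: the monomial automorphisms of random linear codes are scalar

For every finite field `F` and every rate `0 < R < 1` the monomial automorphism group of a
uniformly random `⌊R n⌋`-dimensional subspace of `F ^ n` consists of the scalar maps, with
probability tending to `1`.

Proof. Union bound over the monomial maps `T`. If `T` differs from a scalar `c` in `b` places and
`b` is at most a small constant times `n`, then `s = rank (T - c)` lies between `b / 2` and `b`;
an invariant subspace `C` satisfies `W ≤ C ≤ (T - c)⁻¹ W` for the subspace `W = (T - c) C` of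
the range of `T - c`, and a union bound over `W` shows that `C` is invariant with probability at
most `q ^ (- c' n b)`. If `T` is far from all scalars, then all `T - c` have linear rank, and
exposing vectors `g` of `C` together with `T g` one after the other gives the bound
`q ^ (- c' n ^ 2)`, which beats the number `(q n) ^ n` of all monomial maps.
-/

set_option autoImplicit false

namespace Pool.Agent.Results.MP_7f4d3c_lc.ScalarAutomorphisms

open Pool.Agent.Q227.RC Filter Topology

theorem result (F : Type) [Field F] [Fintype F] (R : ℝ) (hR : 0 < R) (hR1 : R < 1) :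
    Tendsto (fun n : ℕ =>
      (Nat.card {C : Submodule F (Fin n → F) //
          Module.finrank F C = ⌊R * n⌋₊ ∧ Aut C = scalars F n} : ℝ) /
        Nat.card {C : Submodule F (Fin n → F) // Module.finrank F C = ⌊R * n⌋₊})
      atTop (𝓝 1) := by
  have h := (tendsto_bad (F := F) hR hR1).const_sub 1
  rw [sub_zero] at h
  refine h.congr fun n => ?_
  obtain ⟨k, hk⟩ : ∃ k, k = ⌊R * n⌋₊ := ⟨_, rfl⟩
  rw [← hk]
  have hkn : k ≤ n := by
    have : (k : ℝ) ≤ n := by
      rw [hk]
      refine (Nat.floor_le (by positivity)).trans ?_
      nlinarith [(Nat.cast_nonneg n : (0 : ℝ) ≤ n)]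
    exact_mod_cast this
  have hG : (0 : ℝ) < G F n k := by exact_mod_cast G_pos hkn
  have e1 : (Nat.card {C : Submodule F (Fin n → F) // Module.finrank F C = k} : ℝ) =
    G F n k := rfl
  have e2 : Nat.card {C : Submodule F (Fin n → F) //
      Module.finrank F C = k ∧ Aut C = scalars F n} +
      cnt (fun C : Submodule F (Fin n → F) =>
        Module.finrank F C = k ∧ Aut C ≠ scalars F n) = G F n k := by
    classical
    have e3 : Nat.card {C : Submodule F (Fin n → F) //
        Module.finrank F C = k ∧ Aut C = scalars F n} =
        cnt (fun C : Submodule F (Fin n → F) =>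
          Module.finrank F C = k ∧ Aut C = scalars F n) := rfl
    rw [e3, G]
    letI : Fintype (Submodule F (Fin n → F)) := Fintype.ofFinite _
    unfold cnt
    rw [Nat.card_eq_fintype_card, Nat.card_eq_fintype_card, Nat.card_eq_fintype_card,
      Fintype.card_subtype, Fintype.card_subtype, Fintype.card_subtype, ← Finset.filter_filter,
      ← Finset.filter_filter]
    exact Finset.card_filter_add_card_filter_not _
  have e4 : (Nat.card {C : Submodule F (Fin n → F) //
      Module.finrank F C = k ∧ Aut C = scalars F n} : ℝ) +
      cnt (fun C : Submodule F (Fin n → F) =>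
        Module.finrank F C = k ∧ Aut C ≠ scalars F n) = G F n k := by exact_mod_cast e2
  rw [e1, eq_div_iff hG.ne', sub_mul, div_mul_cancel₀ _ hG.ne']
  linarith

end Pool.Agent.Results.MP_7f4d3c_lc.ScalarAutomorphisms
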